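import Pool.Agent.H2.Zig1

set_option autoImplicit false

namespace Pool.Agent.Results.MP_61cfb3_pr.NotMinimax

open Set Pool.Agent.H2.Zig
open scoped ENNReal

/-- the set `S⁻¹(H)` of times at which the searcher is at `H` -/
def Z (S : ℝ → ℝ) (H : ℝ) : Set ℝ := {t | 0 ≤ t ∧ S t = H}

/-- admissible trajectories on `[0, ∞)` -/
structure IsTraj (S : ℝ → ℝ) : Prop where
  zero : S 0 = 0
  lip : ∀ t t', 0 ≤ t → 0 ≤ t' → |S t - S t'| ≤ |t - t'|
  fin : ∀ H, H ≠ 0 → ∀ R, {C | ∃ s ∈ Z S H, C = connectedComponentIn (Z S H) s ∧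
    (C ∩ Icc 0 R).Nonempty}.Finite

/-- visit times: left endpoints of the connected components of `S⁻¹(H)` -/
def V (S : ℝ → ℝ) (H : ℝ) : Set ℝ :=
  {t | ∃ s ∈ Z S H, IsLeast (connectedComponentIn (Z S H) s) t}

/-- time of visit number `i + 1` (`∞` if there is none) -/
noncomputable def visit (S : ℝ → ℝ) (H : ℝ) (i : ℕ) : ℝ≥0∞ :=
  ⨅ (t ∈ V S H) (_ : (i : ℕ∞) ≤ (V S H ∩ Iio t).encard), ENNReal.ofReal t

/-- expected capture time -/
noncomputable def E (p : ℝ) (S : ℝ → ℝ) (H : ℝ) : ℝ≥0∞ :=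
  ∑' i : ℕ, ENNReal.ofReal ((1 - p) ^ i * p) * visit S H i

/-- guaranteed cost -/
noncomputable def v (p : ℝ) (S : ℝ → ℝ) : ℝ≥0∞ :=
  ⨆ (H : ℝ) (_ : H ≠ 0), E p S H / ENNReal.ofReal |H|

theorem E_le (p : ℝ) (hp0 : 0 < p) (hp1 : p < 1) (S : ℝ → ℝ) (H : ℝ) (u : ℕ → ℝ)
    (hu : StrictMono u) (hV : ∀ k, u k ∈ V S H) (h0 : ∀ k, 0 ≤ u k) (s : ℝ)
    (hs : HasSum (fun k => (1 - p) ^ k * p * u k) s) : E p S H ≤ ENNReal.ofReal s := by
  have hq : 0 ≤ 1 - p := by linarith
  rw [← hs.tsum_eq, ENNReal.ofReal_tsum_of_nonneg (fun k => by have := h0 k; positivity)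
    hs.summable]
  refine ENNReal.tsum_le_tsum fun k => ?_
  rw [ENNReal.ofReal_mul (p := (1 - p) ^ k * p) (by positivity)]
  gcongr
  refine iInf_le_of_le (u k) (iInf_le_of_le (hV k) (iInf_le_of_le ?_ le_rfl))
  have h1 : u '' (Iio k) ⊆ V S H ∩ Iio (u k) := by
    rintro _ ⟨j, hj, rfl⟩; exact ⟨hV j, hu hj⟩
  refine le_trans (le_of_eq ?_) (encard_le_encard h1)
  rw [hu.injective.encard_image, ← Finset.coe_range, encard_coe_eq_coe_finsetCard]; simp

theorem result (p : ℝ) (hp0 : 0 < p) (hp1 : p < 1) :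
    ∃ S : ℝ → ℝ, IsTraj S ∧ v p S < ENNReal.ofReal (p / (2 - p) + 8 / p) := by
  obtain ⟨a, ha'⟩ : ∃ a, a = 2 / (2 - p) := ⟨_, rfl⟩
  obtain ⟨b, hb'⟩ : ∃ b, b = (2 - p) ^ 2 / 4 := ⟨_, rfl⟩
  obtain ⟨c, hc'⟩ : ∃ c, c = p * (1 - p) / 7 := ⟨_, rfl⟩
  have h2p : 0 < 2 - p := by linarith
  have hq : 0 < 1 - p := by linarith
  have ha : 1 < a := by rw [ha', lt_div_iff₀ h2p]; linarith
  have hb : 0 ≤ b := by rw [hb']; positivity
  have hc0 : 0 < c := by rw [hc']; positivity
  have hc := hc0.le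
  have hbc : b + c ≤ 1 := by rw [hb', hc']; nlinarith
  have hba : b * a ^ 2 = 1 := by rw [hb', ha']; field_simp; norm_num
  have hx : ∀ j : ℤ, 0 < a ^ j := fun j => zpow_pos (by linarith) _
  have hfin : ∀ H, H ≠ 0 → ∀ R, (Z (S a b c) H ∩ Iic R).Finite := fun H hH R =>
    (level_finite ha hb hc H hH R).subset fun t ht => ⟨ht.1.1, ht.1.2, ht.2⟩
  have hZV : ∀ H, H ≠ 0 → ∀ t, 0 ≤ t → S a b c t = H → t ∈ V (S a b c) H := by
    intro H hH t h1 h2
    refine ⟨t, ⟨h1, h2⟩, ?_⟩
    rw [comp_single _ (hfin H hH) t ⟨h1, h2⟩]; exact isLeast_singleton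
  refine ⟨S a b c, ⟨S_zero, S_lip ha hb hc, fun H hH R => ?_⟩, ?_⟩
  · refine ((hfin H hH R).image fun s => ({s} : Set ℝ)).subset ?_
    rintro C ⟨s, hs, rfl, t, ht1, ht2⟩
    rw [comp_single _ (hfin H hH) s hs] at ht1 ⊢
    rw [mem_singleton_iff] at ht1
    exact ⟨s, ⟨hs, ht1 ▸ ht2.2⟩, rfl⟩
  have hK : 0 < p / (2 - p) + 8 / p := by positivity
  refine lt_of_le_of_lt (b := ENNReal.ofReal (p / (2 - p) + 8 / p - 4 * c))
    (iSup₂_le fun H hH => ?_) ((ENNReal.ofReal_lt_ofReal_iff hK).2 (by linarith))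
  have hh0 : 0 < |H| := abs_pos.2 hH
  refine ENNReal.div_le_of_le_mul ?_
  rw [← ENNReal.ofReal_mul' hh0.le]
  obtain ⟨i, hi1, hi2, hi3⟩ : ∃ i : ℤ, b * a ^ i ≤ |H| ∧ |H| < a ^ i ∧ (-1) ^ i * |H| = H := by
    obtain ⟨j, j1, j2⟩ := exists_mem_Ico_zpow hh0 ha
    have e1 : a ^ (j + 1) = a ^ j * a := zpow_add_one₀ (by linarith) _
    have e2 : a ^ (j + 1 + 1) = a ^ (j + 1) * a := zpow_add_one₀ (by linarith) _
    have e3 : (-1 : ℝ) ^ (j + 1 + 1) = (-1) ^ (j + 1) * (-1) := zpow_add_one₀ (by norm_num) _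
    have k1 : b * a ^ (j + 1 + 1) = a ^ j := by rw [e2, e1]; linear_combination a ^ j * hba
    have k2 : a ^ (j + 1) ≤ a ^ (j + 1 + 1) := zpow_le_zpow_right₀ ha.le (by omega)
    have k3 := mul_le_mul_of_nonneg_left k2 hb
    by_cases hs : (-1) ^ (j + 1) * |H| = H
    · exact ⟨j + 1, by linarith, j2, hs⟩
    · refine ⟨j + 1 + 1, by linarith, by linarith, ?_⟩
      rw [e3]
      rcases eq_or_eq_neg_of_abs_eq (abs_sgn (j + 1)) with h | h <;> rw [h] at hs ⊢ <;>
        rcases abs_choice H with h' | h' <;> rw [h'] at hs ⊢ <;> simp at hs ⊢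
  generalize |H| = h at *
  have hxi := hx i
  have hT := T_pos ha hc
  have pw : ∀ k : ℕ, a ^ (i + k) = a ^ i * a ^ k := fun k => by
    rw [zpow_add₀ (by linarith), zpow_natCast]
  have pw1 : ∀ k : ℕ, a ^ i ≤ a ^ (i + k) := fun k => zpow_le_zpow_right₀ ha.le (by omega)
  let β : ℕ → ℝ := fun k => T a c (i + k) + (-1) ^ k * h
  have hit : ∀ (j : ℤ) (s : ℝ), Even (j - i) → 0 ≤ s → s ≤ (2 + 2 * c) * a ^ j →
      psi b c (a ^ j) s = h → T a c j + s ∈ V (S a b c) H := by
    intro j s hj h1 h2 h3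
    refine hZV H hH _ (by linarith [hT j]) ?_
    rw [S_eq ha hb hc j _ (by linarith) (by rw [T_succ ha]; linarith), add_sub_cancel_left, h3,
      ← hi3, show j = (j - i) + i by ring, zpow_add₀ (by norm_num), hj.neg_one_zpow, one_mul]
  have hβV : ∀ k, 1 ≤ k → β k ∈ V (S a b c) H := by
    intro k hk
    rcases Nat.even_or_odd' k with ⟨m, rfl | rfl⟩
    · have e : β (2 * m) = T a c (i + (2 * m : ℕ)) + h := by simp [β, pow_mul]
      have k1 := pw1 (2 * m)
      have k2 : a ^ i ≤ b * a ^ (i + (2 * m : ℕ)) := by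
        have k3 : a ^ (i + (2 : ℕ)) ≤ a ^ (i + (2 * m : ℕ)) :=
          zpow_le_zpow_right₀ ha.le (by omega)
        have k4 := mul_le_mul_of_nonneg_left k3 hb
        rw [pw 2] at k4
        nlinarith
      have k5 := mul_nonneg hc (hx (i + (2 * m : ℕ))).le
      rw [e]
      exact hit _ _ (by simp) hh0.le (by linarith)
        (psiA hc (hx _).le (by linarith) (by linarith))
    · have e : β (2 * m + 1) = T a c (i + (2 * m : ℕ)) +
          ((2 + 2 * c) * a ^ (i + (2 * m : ℕ)) - h) := by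
        simp only [β]
        rw [show i + ((2 * m + 1 : ℕ) : ℤ) = i + (2 * m : ℕ) + 1 by push_cast; ring, T_succ ha,
          pow_succ, pow_mul]
        simp; ring
      have k1 := pw1 (2 * m)
      have k5 := mul_nonneg hc (hx (i + (2 * m : ℕ))).le
      rw [e]
      exact hit _ _ (by simp) (by linarith) (by linarith) (psiD hc (hx _).le (by linarith))
  have hβ0 : β 0 = T a c i + h := by simp [β]
  have hβ1 : β 1 = T a c i + ((2 + 2 * c) * a ^ i - h) := by
    simp only [β]; rw [Nat.cast_one, T_succ ha]; ring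
  have hβm : ∀ k, β k < β (k + 1) := by
    intro k
    simp only [β]
    rw [show i + ((k + 1 : ℕ) : ℤ) = i + k + 1 by push_cast; ring, T_succ ha, pow_succ]
    have k1 := pw1 k
    have k5 := mul_nonneg hc (hx (i + k)).le
    rcases neg_one_pow_eq_or ℝ k with e | e <;> rw [e] <;> linarith
  have hβp : ∀ k, 0 ≤ β k :=
    fun k => le_trans (by rw [hβ0]; linarith [hT i]) ((strictMono_nat_of_lt_succ hβm).monotone
      (Nat.zero_le k))
  have hsum : HasSum (fun k => (1 - p) ^ k * p * β k)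
      (8 / p * (1 + c) * (b * a ^ i) + p / (2 - p) * h) := by
    have g1 := (hasSum_geometric_of_lt_one (r := (1 - p) * a) (by positivity) (by
      rw [ha', ← mul_div_assoc, div_lt_one h2p]; linarith)).mul_left (p * T a c i)
    have g2 := (hasSum_geometric_of_abs_lt_one (r := -(1 - p)) (by
      rw [abs_neg, abs_of_pos hq]; linarith)).mul_left (p * h)
    have e1 : (fun k => (1 - p) ^ k * p * β k) = fun k => p * T a c i * ((1 - p) * a) ^ k +
        p * h * (-(1 - p)) ^ k := by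
      funext k
      simp only [β, T]; rw [pw, mul_pow, neg_pow (1 - p)]; ring
    have e2 : 8 / p * (1 + c) * (b * a ^ i) + p / (2 - p) * h =
        p * T a c i * (1 - (1 - p) * a)⁻¹ + p * h * (1 - -(1 - p))⁻¹ := by
      have f1 : 1 - (1 - p) * a = p / (2 - p) := by rw [ha']; field_simp; ring
      have f2 : a - 1 = p / (2 - p) := by rw [ha']; field_simp; ring
      have f3 : 1 - -(1 - p) = 2 - p := by ring
      simp only [T]; rw [f1, f2, f3, hb']; field_simp; ring
    rw [e1, e2]; exact g1.add g2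
  have hcx := mul_pos hc0 hxi
  by_cases hz : h < (b + c) * a ^ i
  · let w : ℕ → ℝ := fun k => Nat.casesOn k (β 0) fun k => Nat.casesOn k
      (T a c i + (2 * (b + c) * a ^ i - h)) fun k => β (k + 1)
    have hbx : b * a ^ i ≤ a ^ i := by nlinarith
    have hw : StrictMono w := by
      refine strictMono_nat_of_lt_succ fun k => ?_
      rcases k with _ | _ | k
      · show β 0 < T a c i + (2 * (b + c) * a ^ i - h)
        rw [hβ0]; linarith
      · show T a c i + (2 * (b + c) * a ^ i - h) < β 1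
        rw [hβ1]; nlinarith
      · exact hβm (k + 1)
    have hs : HasSum (fun k => (1 - p) ^ k * p * w k)
        ((1 - p) * (8 / p * (1 + c) * (b * a ^ i) + p / (2 - p) * h - p * β 0) +
          (p * β 0 + (1 - p) * p * (T a c i + (2 * (b + c) * a ^ i - h)))) := by
      have s1 := ((hasSum_nat_add_iff' 1).2 hsum).mul_left (1 - p)
      have s2 : HasSum (fun k => (1 - p) ^ (k + 2) * p * w (k + 2))
          ((1 - p) * (8 / p * (1 + c) * (b * a ^ i) + p / (2 - p) * h - p * β 0)) := by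
        have e1 : (fun k => (1 - p) ^ (k + 2) * p * w (k + 2)) =
            fun k => (1 - p) * ((1 - p) ^ (k + 1) * p * β (k + 1)) := by
          funext k
          show (1 - p) ^ (k + 2) * p * β (k + 1) = _
          ring
        rw [e1]; simpa using s1
      have s3 := (hasSum_nat_add_iff (f := fun k => (1 - p) ^ k * p * w k) 2).1 s2
      simpa [Finset.sum_range_succ, w] using s3
    refine (E_le p hp0 hp1 _ H w hw (fun k => ?_) (fun k => ?_) _ hs).trans
      (ENNReal.ofReal_le_ofReal ?_)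
    · rcases k with _ | _ | k
      · show β 0 ∈ _
        rw [hβ0]
        exact hit i _ (by simp) hh0.le (by linarith) (psiA hc hxi.le hz.le hi2.le)
      · exact hit i _ (by simp) (by linarith) (by linarith) (psiB (by linarith) hxi.le hi1 hz.le)
      · exact hβV _ (by omega)
    · exact (hβp 0).trans (hw.monotone (Nat.zero_le k))
    · rw [hβ0]
      have f2 : a - 1 = p / (2 - p) := by rw [ha']; field_simp; ring
      have t1 : p * T a c i = 8 * (1 + c) / (2 - p) * (b * a ^ i) := by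
        simp only [T]; rw [f2, hb']; field_simp; ring
      have t2 : a ^ i ≤ 4 * (b * a ^ i) := by
        have : 1 ≤ 4 * b := by rw [hb']; nlinarith
        nlinarith
      obtain ⟨y, hy⟩ : ∃ y, y = b * a ^ i := ⟨_, rfl⟩
      obtain ⟨r, hr⟩ : ∃ r, r = 1 / (2 - p) := ⟨_, rfl⟩
      obtain ⟨g, hg⟩ : ∃ g, g = 1 / p := ⟨_, rfl⟩
      have r1 : r * (2 - p) = 1 := by rw [hr]; field_simp
      have g1 : g * p = 1 := by rw [hg]; field_simp
      have r0 : 0 < r := by rw [hr]; positivity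
      have r2 : r ≤ 1 := by nlinarith
      have r3 : 1 / 2 ≤ r := by nlinarith
      have g0 : 1 ≤ g := by nlinarith
      have cg : c * g = (1 - p) / 7 := by rw [hc', hg]; field_simp
      have e1 : 8 / p = 8 * g := by rw [hg]; ring
      have e2 : p / (2 - p) = p * r := by rw [hr]; ring
      have e3 : 8 * (1 + c) / (2 - p) = 8 * (1 + c) * r := by rw [hr]; ring
      rw [e3, ← hy] at t1
      rw [← hy] at t2 hi1
      rw [e1, e2, ← hy]
      have y0 : 0 ≤ y := by linarith
      have m1 : (1 - p) * (8 * g * (1 + c) * y) ≤ (1 - p) * (8 * g * (1 + c) * h) := by gcongr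
      have m2 : 8 * (1 + c) * r * y ≤ 8 * (1 + c) * r * h := by gcongr
      have m3 : (1 - p) * p * (2 * c * a ^ i) ≤ 8 * c * h := by
        have : (1 - p) * p ≤ 1 := by nlinarith
        have : 2 * c * a ^ i ≤ 8 * c * h := by nlinarith
        nlinarith
      have m4 : (1 - p) * p * y ≤ (1 - p) * p * h := by gcongr
      have key : (1 - p) * (8 * g * (1 + c)) + (1 - p) * (p * r) + 8 * (1 + c) * r + p + 8 * c ≤
          p * r + 8 * g - 4 * c := by
        have n1 : (1 - p) * (c * g) ≤ (1 - p) / 7 := by rw [cg]; nlinarith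
        have n2 : c * r ≤ c := by nlinarith
        have n3 : c ≤ (1 - p) / 7 := by nlinarith
        have n4 : 8 - 8 * r - p + p * p * r = 2 * (1 - p) * (4 - p) * r := by
          linear_combination (p - 8) * r1
        have n5 : 2 ≤ (4 - p) * r := by nlinarith
        nlinarith
      have m5 := mul_le_mul_of_nonneg_right key hh0.le
      have e4 : 2 * (b + c) * a ^ i = 2 * y + 2 * c * a ^ i := by rw [hy]; ring
      rw [e4]
      nlinarith
  · push Not at hz
    let u : ℕ → ℝ := fun k => β k + if k = 0 then 2 * c * a ^ i else 0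
    have hu : StrictMono u := by
      refine strictMono_nat_of_lt_succ fun k => ?_
      rcases k with _ | k
      · simp only [u, zero_add, hβ0, hβ1]; simp; linarith
      · simpa [u] using hβm (k + 1)
    have hs : HasSum (fun k => (1 - p) ^ k * p * u k)
        (8 / p * (1 + c) * (b * a ^ i) + p / (2 - p) * h + p * (2 * c * a ^ i)) := by
      have e1 : (fun k => (1 - p) ^ k * p * u k) = fun k => (1 - p) ^ k * p * β k +
          if k = 0 then p * (2 * c * a ^ i) else 0 := by
        funext k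
        simp only [u]; split_ifs with hk
        · subst hk; ring
        · ring
      rw [e1]; exact hsum.add (hasSum_ite_eq 0 _)
    refine (E_le p hp0 hp1 _ H u hu (fun k => ?_) (fun k => ?_) _ hs).trans
      (ENNReal.ofReal_le_ofReal ?_)
    · rcases k with _ | k
      · simp only [u, if_true, hβ0, add_assoc]
        exact hit i _ (by simp) (by linarith) (by linarith) (psiC hc hxi.le hi1 hi2.le)
      · simpa [u] using hβV (k + 1) (by omega)
    · simp only [u]; have := hβp k; split_ifs <;> linarith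
    · have e1 : 8 / p * (1 + c) * b + 2 * c * p + c * (8 - 4 * p) = 8 / p * (b + c) := by
        rw [hb']; field_simp; ring
      have k1 : 8 / p * (1 + c) * b + 2 * c * p ≤ (8 / p - 4 * c) * (b + c) := by
        have : c * (b + c) ≤ c * 1 := by gcongr
        nlinarith
      have k2 : 0 ≤ 8 / p - 4 * c := by
        have : 8 ≤ 8 / p := by rw [le_div_iff₀ hp0]; linarith
        linarith
      have k3 := mul_le_mul_of_nonneg_left hz k2
      have k4 := mul_le_mul_of_nonneg_right k1 hxi.le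
      nlinarith

end Pool.Agent.Results.MP_61cfb3_pr.NotMinimax
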